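import Pool.Agent.H77.BD.Targets

/-! # UIR: the rank of the part of the positive unipotent group -/

set_option autoImplicit false

open Set Matrix Pool.Agent.H77.BC

namespace Pool.Agent.H72.BD

open Pool.Agent.H77.BD

theorem pf_UIR {M : Type} (U : RU M) (hRKA : RKA U) (hRKB : RKB U) (hRKS : RKS U)
    (_hUIA : T_UIA) (hUIT : T_UIT) (hUPN : T_UPN U) : T_UIR U := by
  intro l C hC F Γ _ _ _ _ _ _ _ x τ hT hx i
  obtain ⟨hB, -, -, hA⟩ := hUPN hC hT hx
  have hA := hA i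
  have hz : ∀ β, x β 0 = 1 := by
    intro β
    have h := hT.add β 0 0
    rw [add_zero] at h
    exact left_eq_mul.1 h
  have hn : ∀ β t, x β (-t) = (x β t)⁻¹ := by
    intro β t
    have h := hT.add β t (-t)
    rw [add_neg_cancel, hz] at h
    exact eq_inv_of_mul_eq_one_right h.symm
  have hf : DFn U (fun p : Γ × F => p.1 * x (sr hC i) p.2) :=
    DFn_comp (f := fun p : Γ × F => (p.1, x (sr hC i) p.2)) (g := fun q : Γ × Γ => q.1 * q.2)
      DG.mul (DFn_pair DFn_fst (DFn_comp (hx _) DFn_snd))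
  have hAne : (Ug x (fun β => IsPos β ∧ β.1 ≠ si i) : Set Γ).Nonempty := ⟨1, one_mem _⟩
  have hAB : Ug x (fun β => IsPos β ∧ β.1 ≠ si i) ≤ Ug x IsPos := by
    refine Subgroup.closure_mono ?_
    rintro g ⟨β, t, h, rfl⟩
    exact ⟨β, t, h.1, rfl⟩
  have hpos : IsPos (sr hC i) := by
    intro j
    rw [sr_val]
    unfold si
    rw [Pi.single_apply]
    split_ifs <;> norm_num
  have hD : U.D ((Ug x (fun β => IsPos β ∧ β.1 ≠ si i) : Set Γ) ×ˢ (univ : Set F)) :=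
    D_prod hA Ful.full
  have hne : ((Ug x (fun β => IsPos β ∧ β.1 ≠ si i) : Set Γ) ×ˢ (univ : Set F)).Nonempty :=
    hAne.prod univ_nonempty
  have hinj : InjOn (fun p : Γ × F => p.1 * x (sr hC i) p.2)
      ((Ug x (fun β => IsPos β ∧ β.1 ≠ si i) : Set Γ) ×ˢ (univ : Set F)) := by
    rintro ⟨u, s⟩ ⟨hu, -⟩ ⟨u', s'⟩ ⟨hu', -⟩ h
    have h1 : x (sr hC i) (s' - s) = u'⁻¹ * u := by
      have h2 : u * x (sr hC i) s = u' * x (sr hC i) s' := h
      rw [sub_eq_add_neg, hT.add, hn]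
      rw [mul_inv_eq_iff_eq_mul, mul_assoc, h2, inv_mul_cancel_left]
    have h3 : s' - s = 0 := by
      refine hUIT hC hT i (s' - s) ?_
      rw [h1]
      exact mul_mem (inv_mem hu') hu
    have h4 : s' = s := sub_eq_zero.1 h3
    subst h4
    have h5 : u * x (sr hC i) s' = u' * x (sr hC i) s' := h
    rw [mul_left_inj] at h5
    rw [h5]
  have h1 := hRKB.inj hD hf hne hinj
  have h2 := hRKB.prod (U := U) hA (Ful.full (U := U) (α := F)) hAne univ_nonempty
  have h3 : (fun p : Γ × F => p.1 * x (sr hC i) p.2) ''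
      ((Ug x (fun β => IsPos β ∧ β.1 ≠ si i) : Set Γ) ×ˢ (univ : Set F)) ⊆ (Ug x IsPos : Set Γ) := by
    rintro g ⟨⟨u, s⟩, ⟨hu, -⟩, rfl⟩
    exact mul_mem (hAB hu) (Subgroup.subset_closure ⟨_, s, hpos, rfl⟩)
  have h4 := hRKA.mono (DFn_image hf hD) hB (hne.image _) h3
  have h5 : 1 ≤ U.R (univ : Set F) := hRKS.1
  omega

end Pool.Agent.H72.BD
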